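import Mathlib

/-!
# Board b5, class `PC`: partial fractions `Y/Q = c/(1 - T z) + h`, `h = r/q`

`Q = (1 - T X) q`, `q` zero-free on the closed disc, `|Y| ≤ |Q|` on the circle.
-/

namespace Pool.Agent.B5.H40

open Polynomial Metric

/-- Maximum principle for a quotient of polynomials. -/
theorem maxp (p q : ℂ[X]) (B : ℝ) (hq : ∀ z : ℂ, ‖z‖ ≤ 1 → q.eval z ≠ 0)
    (h : ∀ z : ℂ, ‖z‖ = 1 → ‖p.eval z‖ ≤ B * ‖q.eval z‖) :
    ∀ z : ℂ, ‖z‖ ≤ 1 → ‖p.eval z‖ ≤ B * ‖q.eval z‖ := by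
  intro z hz
  have hcl : closure (ball (0 : ℂ) 1) = closedBall 0 1 := closure_ball 0 one_ne_zero
  have hfr : frontier (ball (0 : ℂ) 1) = sphere 0 1 := frontier_ball 0 one_ne_zero
  have hd : DiffContOnCl ℂ (fun z => p.eval z / q.eval z) (ball (0 : ℂ) 1) := by
    apply DifferentiableOn.diffContOnCl
    rw [hcl]
    apply DifferentiableOn.div p.differentiable.differentiableOn q.differentiable.differentiableOn
    intro w hw
    exact hq w (by simpa using hw)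
  have h1 := Complex.norm_le_of_forall_mem_frontier_norm_le (C := B) isBounded_ball hd
    (by
      intro w hw
      rw [hfr] at hw
      have hw1 : ‖w‖ = 1 := by simpa using hw
      have hqw : 0 < ‖q.eval w‖ := norm_pos_iff.mpr (hq w hw1.le)
      rw [norm_div, div_le_iff₀ hqw]
      exact h w hw1)
    (z := z) (by rw [hcl]; simpa using hz)
  have hqz : 0 < ‖q.eval z‖ := norm_pos_iff.mpr (hq z hz)
  rwa [norm_div, div_le_iff₀ hqz] at h1

theorem one_sub_ne (T z : ℂ) (hT : 1 < ‖T‖) (hz : ‖z‖ = 1) : 1 - T * z ≠ 0 := by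
  intro h0
  have h1 : T * z = 1 := (sub_eq_zero.mp h0).symm
  have h2 : ‖T‖ * ‖z‖ = 1 := by rw [← norm_mul, h1, norm_one]
  rw [hz, mul_one] at h2
  linarith

/-- On the circle `|1 - T z| = |T| |1 - conj a z|`, `a = 1/T`. -/
theorem norm_one_sub (T z : ℂ) (hT : 1 < ‖T‖) (hz : ‖z‖ = 1) :
    ‖1 - T * z‖ = ‖T‖ * ‖1 - (starRingEnd ℂ) (T⁻¹) * z‖ := by
  have hT0 : T ≠ 0 := norm_pos_iff.mp (by linarith)
  have hzz : z * (starRingEnd ℂ) z = 1 := by
    rw [Complex.mul_conj, Complex.normSq_eq_norm_sq, hz]; norm_num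
  have h1 : 1 - T * z = -T * (z * (starRingEnd ℂ) (1 - (starRingEnd ℂ) (T⁻¹) * z)) := by
    rw [map_sub, map_mul, Complex.conj_conj, map_one]
    have : -T * (z * (1 - T⁻¹ * (starRingEnd ℂ) z)) = -T * z + (T * T⁻¹) * (z * (starRingEnd ℂ) z) := by
      ring
    rw [this, hzz, mul_inv_cancel₀ hT0]
    ring
  rw [h1, norm_mul, norm_mul, norm_neg, hz, one_mul, Complex.norm_conj]

/-- Circle integral of `z⁻¹ (1 - T z)⁻¹`. -/
theorem int_zero (T : ℂ) (hT : 1 < ‖T‖) : (∮ z in C(0, 1), z⁻¹ * (1 - T * z)⁻¹) = 0 := by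
  have hT0 : T ≠ 0 := norm_pos_iff.mp (by linarith)
  have ha : ‖T⁻¹‖ < 1 := by rw [norm_inv]; exact inv_lt_one_of_one_lt₀ hT
  have h1 : (∮ z in C(0, 1), z⁻¹ * (1 - T * z)⁻¹) =
      ∮ z in C(0, 1), ((z - 0)⁻¹ - (z - T⁻¹)⁻¹) := by
    apply circleIntegral.integral_congr zero_le_one
    intro z hz
    have hz1 : ‖z‖ = 1 := by simpa using hz
    have hz0 : z ≠ 0 := norm_pos_iff.mp (by linarith)
    have h2 := one_sub_ne T z hT hz1
    have h3 : z - T⁻¹ ≠ 0 := by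
      intro h0
      apply h2
      have : z = T⁻¹ := sub_eq_zero.mp h0
      rw [this, mul_inv_cancel₀ hT0, sub_self]
    change z⁻¹ * (1 - T * z)⁻¹ = (z - 0)⁻¹ - (z - T⁻¹)⁻¹
    rw [sub_zero]
    have h4 : 1 - T * z = -T * (z - T⁻¹) := by
      rw [mul_sub, neg_mul T T⁻¹, mul_inv_cancel₀ hT0]; ring
    have h5 : z * T - 1 ≠ 0 := by
      intro h0; apply h2; linear_combination -h0
    rw [h4]
    field_simp
    ring
  rw [h1, circleIntegral.integral_sub, circleIntegral.integral_sub_inv_of_mem_ball (by simp),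
    circleIntegral.integral_sub_inv_of_mem_ball (by simpa using ha), sub_self]
  · apply ContinuousOn.circleIntegrable zero_le_one
    apply ContinuousOn.inv₀ (by fun_prop)
    intro z hz
    have hz1 : ‖z‖ = 1 := by simpa using hz
    rw [sub_zero]
    exact norm_pos_iff.mp (by linarith)
  · apply ContinuousOn.circleIntegrable zero_le_one
    apply ContinuousOn.inv₀ (by fun_prop)
    intro z hz h0
    have hz1 : ‖z‖ = 1 := by simpa using hz
    have : z = T⁻¹ := sub_eq_zero.mp h0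
    rw [this] at hz1
    linarith

/-- Cauchy's formula at `0` for `r/q`. -/
theorem int_quot (r q : ℂ[X]) (hq : ∀ z : ℂ, ‖z‖ ≤ 1 → q.eval z ≠ 0) :
    (∮ z in C(0, 1), z⁻¹ * (r.eval z / q.eval z)) = 2 * Real.pi * Complex.I * (r.eval 0 / q.eval 0) := by
  have hd : DifferentiableOn ℂ (fun z => r.eval z / q.eval z) (closedBall (0 : ℂ) 1) := by
    apply DifferentiableOn.div r.differentiable.differentiableOn q.differentiable.differentiableOn
    intro w hw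
    exact hq w (by simpa using hw)
  have h1 := hd.circleIntegral_sub_inv_smul (w := 0) (by simp)
  simpa [smul_eq_mul] using h1

theorem cont_quot (p q : ℂ[X]) (hq : ∀ z : ℂ, ‖z‖ ≤ 1 → q.eval z ≠ 0) :
    ContinuousOn (fun z : ℂ => z⁻¹ * (p.eval z / q.eval z)) (sphere (0 : ℂ) 1) := by
  apply ContinuousOn.mul
  · apply ContinuousOn.inv₀ (by fun_prop)
    intro z hz
    have hz1 : ‖z‖ = 1 := by simpa using hz
    exact norm_pos_iff.mp (by linarith)
  · apply ContinuousOn.div p.continuous.continuousOn q.continuous.continuousOn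
    intro w hw
    have hw1 : ‖w‖ = 1 := by simpa using hw
    exact hq w hw1.le

/-- The regular part at `0` is bounded by the bound on the circle. -/
theorem reg_zero (Y q r : ℂ[X]) (T c : ℂ) (B : ℝ) (hT : 1 < ‖T‖)
    (hq : ∀ z : ℂ, ‖z‖ ≤ 1 → q.eval z ≠ 0)
    (hY : Y = C c * q + (1 - C T * X) * r)
    (hle : ∀ z : ℂ, ‖z‖ = 1 → ‖Y.eval z‖ ≤ B * (‖1 - T * z‖ * ‖q.eval z‖)) :
    ‖r.eval 0‖ ≤ B * ‖q.eval 0‖ := by
  have hI1 : (∮ z in C(0, 1), z⁻¹ * (Y.eval z / ((1 - T * z) * q.eval z))) =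
      2 * Real.pi * Complex.I * (r.eval 0 / q.eval 0) := by
    have h1 : (∮ z in C(0, 1), z⁻¹ * (Y.eval z / ((1 - T * z) * q.eval z))) =
        ∮ z in C(0, 1), (c * (z⁻¹ * (1 - T * z)⁻¹) + z⁻¹ * (r.eval z / q.eval z)) := by
      apply circleIntegral.integral_congr zero_le_one
      intro z hz
      have hz1 : ‖z‖ = 1 := by simpa using hz
      have hz0 : z ≠ 0 := norm_pos_iff.mp (by linarith)
      have h2 := one_sub_ne T z hT hz1
      have h3 := hq z hz1.le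
      change z⁻¹ * (Y.eval z / ((1 - T * z) * q.eval z)) =
        c * (z⁻¹ * (1 - T * z)⁻¹) + z⁻¹ * (r.eval z / q.eval z)
      rw [hY]
      simp only [eval_add, eval_mul, eval_C, eval_sub, eval_one, eval_X]
      generalize 1 - T * z = D at h2
      field_simp
    rw [h1, circleIntegral.integral_add, circleIntegral.integral_const_mul, int_zero T hT, mul_zero,
      zero_add, int_quot r q hq]
    · apply ContinuousOn.circleIntegrable zero_le_one
      apply ContinuousOn.mul continuousOn_const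
      apply ContinuousOn.mul
      · apply ContinuousOn.inv₀ (by fun_prop)
        intro z hz
        have hz1 : ‖z‖ = 1 := by simpa using hz
        exact norm_pos_iff.mp (by linarith)
      · apply ContinuousOn.inv₀ (by fun_prop)
        intro z hz
        have hz1 : ‖z‖ = 1 := by simpa using hz
        exact one_sub_ne T z hT hz1
    · apply ContinuousOn.circleIntegrable zero_le_one
      exact cont_quot r q hq
  have hI2 : ‖∮ z in C(0, 1), z⁻¹ * (Y.eval z / ((1 - T * z) * q.eval z))‖ ≤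
      2 * Real.pi * 1 * B := by
    apply circleIntegral.norm_integral_le_of_norm_le_const zero_le_one
    intro z hz
    have hz1 : ‖z‖ = 1 := by simpa using hz
    have h2 := one_sub_ne T z hT hz1
    have h3 := hq z hz1.le
    have h4 : 0 < ‖(1 - T * z) * q.eval z‖ := norm_pos_iff.mpr (mul_ne_zero h2 h3)
    rw [norm_mul, norm_inv, hz1, inv_one, one_mul, norm_div, div_le_iff₀ h4, norm_mul]
    exact hle z hz1
  rw [hI1, norm_mul] at hI2
  have h5 : ‖(2 : ℂ) * Real.pi * Complex.I‖ = 2 * Real.pi := by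
    rw [norm_mul, norm_mul, Complex.norm_I, mul_one, Complex.norm_real, Real.norm_eq_abs,
      abs_of_pos Real.pi_pos]
    norm_num
  rw [h5, mul_one] at hI2
  have h6 : ‖r.eval 0 / q.eval 0‖ ≤ B := le_of_mul_le_mul_left hI2 (by positivity)
  have h7 : 0 < ‖q.eval 0‖ := norm_pos_iff.mpr (hq 0 (by simp))
  rwa [norm_div, div_le_iff₀ h7] at h6

/-- PCA. -/
theorem pca (Q Y q : ℂ[X]) (T : ℂ) (hT : 1 < ‖T‖) (hQ : Q = (1 - C T * X) * q)
    (hq : ∀ z : ℂ, ‖z‖ ≤ 1 → q.eval z ≠ 0)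
    (hle : ∀ z : ℂ, ‖z‖ = 1 → ‖Y.eval z‖ ≤ ‖Q.eval z‖) :
    ∃ (c : ℂ) (r : ℂ[X]), Y = C c * q + (1 - C T * X) * r ∧ ‖c‖ ≤ ‖T‖ - 1 / ‖T‖ ∧
      (∀ z : ℂ, ‖z‖ ≤ 1 → ‖r.eval z‖ ≤ 3 * ‖q.eval z‖) ∧ ‖r.eval 0‖ ≤ ‖q.eval 0‖ := by
  have hTpos : 0 < ‖T‖ := by linarith
  have hT0 : T ≠ 0 := norm_pos_iff.mp hTpos
  have ha : ‖T⁻¹‖ < 1 := by rw [norm_inv]; exact inv_lt_one_of_one_lt₀ hT
  have hqa : q.eval T⁻¹ ≠ 0 := hq _ ha.le
  have hle' : ∀ z : ℂ, ‖z‖ = 1 → ‖Y.eval z‖ ≤ ‖1 - T * z‖ * ‖q.eval z‖ := by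
    intro z hz
    have h1 := hle z hz
    rw [hQ] at h1
    simpa using h1
  obtain ⟨c, hc⟩ : ∃ c : ℂ, c = Y.eval T⁻¹ / q.eval T⁻¹ := ⟨_, rfl⟩
  have hroot : (Y - C c * q).IsRoot T⁻¹ := by
    rw [IsRoot.def, eval_sub, eval_mul, eval_C, hc, div_mul_cancel₀ _ hqa, sub_self]
  obtain ⟨s, hs⟩ := dvd_iff_isRoot.mpr hroot
  have hfac : (1 - C T * X : ℂ[X]) = C (-T) * (X - C T⁻¹) := by
    have h1 : (C T * C T⁻¹ : ℂ[X]) = 1 := by
      rw [← C_mul, mul_inv_cancel₀ hT0, C_1]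
    rw [C_neg]
    linear_combination -h1
  obtain ⟨r, hr⟩ : ∃ r : ℂ[X], r = C (-T)⁻¹ * s := ⟨_, rfl⟩
  have hY : Y = C c * q + (1 - C T * X) * r := by
    have h1 : (1 - C T * X : ℂ[X]) * r = (X - C T⁻¹) * s := by
      have h2 : (C (-T) * C (-T)⁻¹ : ℂ[X]) = 1 := by
        rw [← C_mul, mul_inv_cancel₀ (neg_ne_zero.mpr hT0), C_1]
      rw [hfac, hr]
      linear_combination (X - C T⁻¹) * s * h2
    rw [h1, ← hs]; ring
  -- bound for `c`
  have hcb : ‖c‖ ≤ ‖T‖ - 1 / ‖T‖ := by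
    obtain ⟨b, hb⟩ : ∃ b : ℂ, b = (starRingEnd ℂ) T⁻¹ := ⟨_, rfl⟩
    have hbn : ‖b‖ < 1 := by rw [hb, Complex.norm_conj]; exact ha
    have hb1 : ∀ z : ℂ, ‖z‖ ≤ 1 → 1 - b * z ≠ 0 := by
      intro z hz h0
      have h1 : b * z = 1 := (sub_eq_zero.mp h0).symm
      have h2 : ‖b‖ * ‖z‖ = 1 := by rw [← norm_mul, h1, norm_one]
      nlinarith [norm_nonneg b, norm_nonneg z]
    have h1 := maxp Y ((1 - C b * X) * q) ‖T‖
      (by
        intro z hz
        rw [eval_mul]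
        apply mul_ne_zero _ (hq z hz)
        simpa using hb1 z hz)
      (by
        intro z hz
        have h2 := hle' z hz
        rw [norm_one_sub T z hT hz, ← hb] at h2
        rw [eval_mul, norm_mul]
        simp only [eval_sub, eval_one, eval_mul, eval_C, eval_X]
        linarith)
      T⁻¹ ha.le
    rw [eval_mul, norm_mul] at h1
    simp only [eval_sub, eval_one, eval_mul, eval_C, eval_X] at h1
    have h3 : (1 : ℂ) - b * T⁻¹ = ((1 - 1 / ‖T‖ ^ 2 : ℝ) : ℂ) := by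
      rw [hb, mul_comm, Complex.mul_conj, Complex.normSq_eq_norm_sq, norm_inv]
      push_cast
      field_simp
    have h4 : 0 < 1 - 1 / ‖T‖ ^ 2 := by
      have : 1 / ‖T‖ ^ 2 < 1 := by
        rw [div_lt_one (by positivity)]
        nlinarith
      linarith
    rw [h3, Complex.norm_real, Real.norm_eq_abs, abs_of_pos h4] at h1
    have h5 : 0 < ‖q.eval T⁻¹‖ := norm_pos_iff.mpr hqa
    rw [hc, norm_div, div_le_iff₀ h5]
    calc ‖Y.eval T⁻¹‖ ≤ ‖T‖ * ((1 - 1 / ‖T‖ ^ 2) * ‖q.eval T⁻¹‖) := h1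
      _ = (‖T‖ - 1 / ‖T‖) * ‖q.eval T⁻¹‖ := by field_simp
  refine ⟨c, r, hY, hcb, ?_, ?_⟩
  · apply maxp r q 3 hq
    intro z hz
    have h2 := one_sub_ne T z hT hz
    have h3 : 0 < ‖1 - T * z‖ := norm_pos_iff.mpr h2
    have h4 : (1 - T * z) * r.eval z = Y.eval z - c * q.eval z := by
      rw [hY]
      simp only [eval_add, eval_mul, eval_C, eval_sub, eval_one, eval_X]
      ring
    have h5 : ‖1 - T * z‖ * ‖r.eval z‖ ≤ (‖1 - T * z‖ + ‖c‖) * ‖q.eval z‖ := by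
      rw [← norm_mul, h4]
      calc ‖Y.eval z - c * q.eval z‖ ≤ ‖Y.eval z‖ + ‖c * q.eval z‖ := norm_sub_le _ _
        _ ≤ ‖1 - T * z‖ * ‖q.eval z‖ + ‖c‖ * ‖q.eval z‖ := by
            rw [norm_mul]; linarith [hle' z hz]
        _ = (‖1 - T * z‖ + ‖c‖) * ‖q.eval z‖ := by ring
    have h6 : ‖T‖ - 1 ≤ ‖1 - T * z‖ := by
      have h7 := norm_sub_norm_le (T * z) 1
      rw [norm_mul, hz, mul_one, norm_one, norm_sub_rev] at h7
      exact h7
    have h8 : ‖c‖ ≤ 2 * ‖1 - T * z‖ := by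
      have h9 : ‖T‖ - 1 / ‖T‖ ≤ 2 * (‖T‖ - 1) := by
        have h10 : ‖T‖ - 1 / ‖T‖ = (‖T‖ - 1) * (1 + 1 / ‖T‖) := by
          field_simp
          ring
        have h11 : 1 / ‖T‖ ≤ 1 := by
          rw [div_le_one hTpos]; exact hT.le
        rw [h10]
        nlinarith
      linarith
    have h12 : ‖1 - T * z‖ * ‖r.eval z‖ ≤ ‖1 - T * z‖ * (3 * ‖q.eval z‖) := by
      calc ‖1 - T * z‖ * ‖r.eval z‖ ≤ (‖1 - T * z‖ + ‖c‖) * ‖q.eval z‖ := h5
        _ ≤ (‖1 - T * z‖ + 2 * ‖1 - T * z‖) * ‖q.eval z‖ := by gcongr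
        _ = ‖1 - T * z‖ * (3 * ‖q.eval z‖) := by ring
    exact le_of_mul_le_mul_left h12 h3
  · have h1 := reg_zero Y q r T c 1 hT hq hY (by intro z hz; rw [one_mul]; exact hle' z hz)
    rwa [one_mul] at h1

end Pool.Agent.B5.H40
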