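import Mathlib

/-!
# Board b5, class `PC`, type II: the zero moves by a definite amount

Numbers only.  The load is `eps X^k` with the delay `k`, the least `k ≥ 1` with `|T|^k ≥ 100 |c|`.
-/

namespace Pool.Agent.B5.H40

theorem norm_pow_sub_one_le (d : ℂ) (n : ℕ) : ‖(1 - d) ^ n - 1‖ ≤ (1 + ‖d‖) ^ n - 1 := by
  induction n with
  | zero => simp
  | succ n ih =>
    have h1 : (1 - d) ^ (n + 1) - 1 = ((1 - d) ^ n - 1) * (1 - d) - d := by ring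
    have h2 : ‖1 - d‖ ≤ 1 + ‖d‖ := by
      calc ‖1 - d‖ ≤ ‖(1 : ℂ)‖ + ‖d‖ := norm_sub_le _ _
        _ = 1 + ‖d‖ := by simp
    have h0 : 0 ≤ (1 + ‖d‖) ^ n - 1 := (norm_nonneg _).trans ih
    calc ‖(1 - d) ^ (n + 1) - 1‖ = ‖((1 - d) ^ n - 1) * (1 - d) - d‖ := by rw [h1]
      _ ≤ ‖((1 - d) ^ n - 1) * (1 - d)‖ + ‖d‖ := norm_sub_le _ _
      _ = ‖(1 - d) ^ n - 1‖ * ‖1 - d‖ + ‖d‖ := by rw [norm_mul]
      _ ≤ ((1 + ‖d‖) ^ n - 1) * (1 + ‖d‖) + ‖d‖ := by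
          gcongr
      _ = (1 + ‖d‖) ^ (n + 1) - 1 := by ring

theorem pcb (T T' c eps h : ℂ) (k : ℕ) (hT : 7 / 5 ≤ ‖T‖) (hc : 7 / 10 ≤ ‖c‖) (hcT : ‖c‖ ≤ ‖T‖)
    (hk : 1 ≤ k) (hkl : 100 * ‖c‖ ≤ ‖T‖ ^ k) (hkm : k = 1 ∨ ‖T‖ ^ (k - 1) < 100 * ‖c‖)
    (he : ‖eps‖ = 1) (hre : ‖c‖ / (2 * ‖T‖ ^ k) ≤ (eps * c / T ^ k).re) (hh : ‖h‖ ≤ 3)
    (hT' : 1 < ‖T'‖) (heq : (T - T') * (1 + eps * h / T' ^ k) = eps * c * T' / T' ^ k) :
    ‖T'‖ ≤ ‖T‖ - 1 / 400 := by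
  by_contra hcon
  push Not at hcon
  have hTpos : 0 < ‖T‖ := by linarith
  have hT0 : T ≠ 0 := norm_pos_iff.mp hTpos
  have hT'0 : T' ≠ 0 := norm_pos_iff.mp (by linarith)
  -- the delay is at most 15
  have hk15 : k ≤ 15 := by
    by_contra hlt
    push Not at hlt
    rcases hkm with h1 | h1
    · omega
    · obtain ⟨m, rfl⟩ : ∃ m, k = m + 2 := ⟨k - 2, by omega⟩
      have hm : 14 ≤ m := by omega
      have e1 : m + 2 - 1 = m + 1 := by omega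
      rw [e1, pow_succ] at h1
      have h2 : ‖T‖ ^ m * ‖T‖ < 100 * ‖T‖ := lt_of_lt_of_le h1 (by linarith)
      have h3 : ‖T‖ ^ m < 100 := lt_of_mul_lt_mul_right h2 hTpos.le
      have h4 : (7 / 5 : ℝ) ^ 14 ≤ ‖T‖ ^ m := by
        calc (7 / 5 : ℝ) ^ 14 ≤ (7 / 5 : ℝ) ^ m := pow_le_pow_right₀ (by norm_num) hm
          _ ≤ ‖T‖ ^ m := pow_le_pow_left₀ (by norm_num) hT m
      have h5 : (100 : ℝ) < (7 / 5 : ℝ) ^ 14 := by norm_num
      linarith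
  -- lower bound for `‖T'‖ ^ k`
  have hTk : 0 < ‖T‖ ^ k := pow_pos hTpos k
  have hlow : 973 / 1000 * ‖T‖ ^ k ≤ ‖T'‖ ^ k := by
    have h1 : 559 / 560 * ‖T‖ ≤ ‖T'‖ := by linarith
    have h2 : (559 / 560 : ℝ) ^ 15 ≤ (559 / 560 : ℝ) ^ k :=
      pow_le_pow_of_le_one (by norm_num) (by norm_num) hk15
    have h3 : (973 / 1000 : ℝ) ≤ (559 / 560 : ℝ) ^ 15 := by norm_num
    calc 973 / 1000 * ‖T‖ ^ k ≤ (559 / 560 : ℝ) ^ k * ‖T‖ ^ k := by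
          apply mul_le_mul_of_nonneg_right (h3.trans h2) hTk.le
      _ = (559 / 560 * ‖T‖) ^ k := by rw [mul_pow]
      _ ≤ ‖T'‖ ^ k := pow_le_pow_left₀ (by positivity) h1 k
  have hlow2 : 68 ≤ ‖T'‖ ^ k := by nlinarith
  have hT'k : 0 < ‖T'‖ ^ k := by linarith
  -- notation
  obtain ⟨W, hW⟩ : ∃ W : ℝ, W = ‖c‖ / ‖T‖ ^ k := ⟨_, rfl⟩
  have hcW : ‖c‖ = W * ‖T‖ ^ k := by rw [hW]; field_simp
  have hWpos : 0 < W := by rw [hW]; positivity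
  have hW100 : W ≤ 1 / 100 := by
    rw [hW, div_le_iff₀ hTk]; linarith
  obtain ⟨e, hee⟩ : ∃ e : ℂ, e = eps * h / T' ^ k := ⟨_, rfl⟩
  have hen : ‖e‖ ≤ 441 / 10000 := by
    rw [hee, norm_div, norm_mul, he, norm_pow, one_mul, div_le_iff₀ hT'k]
    linarith
  obtain ⟨d, hd⟩ : ∃ d : ℂ, d = 1 - T' / T := ⟨_, rfl⟩
  have hTd : T - T' = T * d := by rw [hd]; field_simp
  have hT'd : T' = T * (1 - d) := by rw [hd]; field_simp; ring
  have h1d : 1 - d ≠ 0 := by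
    intro h0
    rw [h0, mul_zero] at hT'd
    exact hT'0 hT'd
  have heq1 : d * (1 + e) = eps * c / T' ^ k * (1 - d) := by
    have h1 : T * (d * (1 + e)) = T * (eps * c / T' ^ k * (1 - d)) := by
      calc T * (d * (1 + e)) = (T - T') * (1 + eps * h / T' ^ k) := by rw [hTd, hee]; ring
        _ = eps * c * T' / T' ^ k := heq
        _ = eps * c / T' ^ k * T' := by ring
        _ = eps * c / T' ^ k * (T * (1 - d)) := by rw [← hT'd]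
        _ = T * (eps * c / T' ^ k * (1 - d)) := by ring
    exact mul_left_cancel₀ hT0 h1
  -- bounds for `d`
  have hcT' : ‖c‖ / ‖T'‖ ^ k ≤ 1000 / 973 * W := by
    rw [div_le_iff₀ hT'k, hcW]
    nlinarith
  have h1e : 1 - ‖e‖ ≤ ‖1 + e‖ := by
    have := norm_sub_norm_le (1 : ℂ) (-e)
    simpa using this
  have h1dn : ‖1 - d‖ ≤ 1 + ‖d‖ := by
    calc ‖1 - d‖ ≤ ‖(1 : ℂ)‖ + ‖d‖ := norm_sub_le _ _
      _ = 1 + ‖d‖ := by simp
  have hdn : ‖d‖ * (1 - 441 / 10000) ≤ 1000 / 973 * W * (1 + ‖d‖) := by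
    calc ‖d‖ * (1 - 441 / 10000) ≤ ‖d‖ * ‖1 + e‖ := by
          apply mul_le_mul_of_nonneg_left _ (norm_nonneg _)
          linarith
      _ = ‖d * (1 + e)‖ := (norm_mul _ _).symm
      _ = ‖eps * c / T' ^ k * (1 - d)‖ := by rw [heq1]
      _ = ‖c‖ / ‖T'‖ ^ k * ‖1 - d‖ := by rw [norm_mul, norm_div, norm_mul, he, norm_pow, one_mul]
      _ ≤ 1000 / 973 * W * (1 + ‖d‖) := by
          apply mul_le_mul hcT' h1dn (norm_nonneg _) (by positivity)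
  have hd0 : 0 ≤ ‖d‖ := norm_nonneg d
  have hd1 : ‖d‖ ≤ 109 / 10000 := by
    have h1 : 1000 / 973 * W * (1 + ‖d‖) ≤ 10 / 973 * (1 + ‖d‖) := by
      apply mul_le_mul_of_nonneg_right _ (by linarith)
      linarith
    linarith
  have hd2 : ‖d‖ ≤ 1088 / 1000 * W := by
    have h1 : 1000 / 973 * W * (1 + ‖d‖) ≤ 1000 / 973 * W * (1 + 109 / 10000) := by
      apply mul_le_mul_of_nonneg_left _ (by positivity)
      linarith
    linarith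
  -- the equation `d u = w`
  obtain ⟨n, rfl⟩ : ∃ n, k = n + 1 := ⟨k - 1, by omega⟩
  have heq2 : d * ((1 + e) * (1 - d) ^ n) = eps * c / T ^ (n + 1) := by
    have h1 : T' ^ (n + 1) = T ^ (n + 1) * (1 - d) ^ (n + 1) := by
      conv_lhs => rw [hT'd]
      rw [mul_pow]
    calc d * ((1 + e) * (1 - d) ^ n) = (d * (1 + e)) * (1 - d) ^ n := by ring
      _ = eps * c / (T ^ (n + 1) * (1 - d) ^ (n + 1)) * (1 - d) * (1 - d) ^ n := by rw [heq1, h1]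
      _ = eps * c / T ^ (n + 1) := by
          have h2 : T ^ (n + 1) ≠ 0 := pow_ne_zero _ hT0
          have h3 : (1 - d) ^ (n + 1) ≠ 0 := pow_ne_zero _ h1d
          rw [mul_assoc, ← pow_succ', div_mul_eq_mul_div, mul_div_mul_right _ _ h3]
  obtain ⟨u, hu⟩ : ∃ u : ℂ, u = (1 + e) * (1 - d) ^ n := ⟨_, rfl⟩
  have hu1 : ‖u - 1‖ ≤ 2153 / 10000 := by
    have h1 : u - 1 = ((1 - d) ^ n - 1) + e * (1 - d) ^ n := by rw [hu]; ring
    have h2 : ‖(1 - d) ^ n - 1‖ ≤ (1 + ‖d‖) ^ n - 1 := norm_pow_sub_one_le d n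
    have h3 : ‖(1 - d) ^ n‖ ≤ (1 + ‖d‖) ^ n := by
      rw [norm_pow]
      exact pow_le_pow_left₀ (norm_nonneg _) h1dn n
    have h4 : (1 + ‖d‖) ^ n ≤ (1 + 109 / 10000) ^ 14 := by
      calc (1 + ‖d‖) ^ n ≤ (1 + 109 / 10000) ^ n := pow_le_pow_left₀ (by linarith) (by linarith) n
        _ ≤ (1 + 109 / 10000) ^ 14 := pow_le_pow_right₀ (by norm_num) (by omega)
    have h5 : (1 + 109 / 10000 : ℝ) ^ 14 ≤ 11639 / 10000 := by norm_num
    calc ‖u - 1‖ = ‖((1 - d) ^ n - 1) + e * (1 - d) ^ n‖ := by rw [h1]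
      _ ≤ ‖(1 - d) ^ n - 1‖ + ‖e * (1 - d) ^ n‖ := norm_add_le _ _
      _ = ‖(1 - d) ^ n - 1‖ + ‖e‖ * ‖(1 - d) ^ n‖ := by rw [norm_mul]
      _ ≤ (11639 / 10000 - 1) + 441 / 10000 * (11639 / 10000) := by
          have h6 : ‖e‖ * ‖(1 - d) ^ n‖ ≤ 441 / 10000 * (11639 / 10000) :=
            mul_le_mul hen (h3.trans (h4.trans h5)) (norm_nonneg _) (by norm_num)
          linarith
      _ ≤ 2153 / 10000 := by norm_num
  have hdre : 265 / 1000 * W ≤ d.re := by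
    have h1 : d = eps * c / T ^ (n + 1) - d * (u - 1) := by
      rw [← heq2, hu]; ring
    have h2 : d.re = (eps * c / T ^ (n + 1)).re - (d * (u - 1)).re := by
      conv_lhs => rw [h1]
      rw [Complex.sub_re]
    have h3 : (d * (u - 1)).re ≤ ‖d * (u - 1)‖ := Complex.re_le_norm _
    have h4 : ‖d * (u - 1)‖ ≤ 1088 / 1000 * W * (2153 / 10000) := by
      rw [norm_mul]
      exact mul_le_mul hd2 hu1 (norm_nonneg _) (by positivity)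
    have h5 : ‖c‖ / (2 * ‖T‖ ^ (n + 1)) = W / 2 := by
      rw [hW]; field_simp
    rw [h5] at hre
    linarith
  have hdsq : ‖d‖ ^ 2 ≤ 119 / 10000 * W := by
    calc ‖d‖ ^ 2 = ‖d‖ * ‖d‖ := sq _
      _ ≤ 109 / 10000 * (1088 / 1000 * W) := mul_le_mul hd1 hd2 hd0 (by norm_num)
      _ ≤ 119 / 10000 * W := by nlinarith
  have hnsq : ‖1 - d‖ ^ 2 = 1 - 2 * d.re + ‖d‖ ^ 2 := by
    rw [← Complex.normSq_eq_norm_sq, ← Complex.normSq_eq_norm_sq, Complex.normSq_apply,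
      Complex.normSq_apply]
    simp only [Complex.sub_re, Complex.one_re, Complex.sub_im, Complex.one_im]
    ring
  have hfin : ‖1 - d‖ ≤ 1 - 259 / 1000 * W := by
    apply le_of_sq_le_sq _ (by linarith)
    nlinarith
  have hT'n : ‖T'‖ = ‖T‖ * ‖1 - d‖ := by
    conv_lhs => rw [hT'd]
    rw [norm_mul]
  have hTW : 1 / 100 ≤ ‖T‖ * W := by
    have h1 : ‖T‖ * W = ‖c‖ / ‖T‖ ^ n := by
      rw [hW, pow_succ]; field_simp
    rw [h1, le_div_iff₀ (pow_pos hTpos n)]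
    rcases hkm with h2 | h2
    · have h3 : n = 0 := by omega
      rw [h3, pow_zero]; linarith
    · have h3 : n + 1 - 1 = n := by omega
      rw [h3] at h2
      linarith
  have h6 : ‖T'‖ ≤ ‖T‖ * (1 - 259 / 1000 * W) := by
    rw [hT'n]
    exact mul_le_mul_of_nonneg_left hfin hTpos.le
  nlinarith

end Pool.Agent.B5.H40
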